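import Pool.Agent.H43.G.R_seed8.H300R2.BH.Defs
import Pool.Agent.H43.G.R_seed8.H442R2.EHI.MajorPoly

/-!
T3 (`ksumP`): Dirichlet polynomial over `k^j`, by Abel summation from `ksum`.
-/

namespace Pool.Agent.H329R2.BH

open Finset Polynomial
open Pool.Agent.H469R2.NK (e)
open Pool.Agent.H442R2.EHI
open Pool.Agent.H300R2.BH

theorem ksumP (j : ℕ) (hj : 1 ≤ j) (ε : ℝ) (hε : 0 < ε) (E1 E2 U : ℕ) : ∃ (E4 x0 : ℕ),
    ∀ x : ℕ, x0 ≤ x →
    ∀ K K1 q r : ℕ, (x : ℝ) ^ ε ≤ K → K ≤ x → K1 ≤ K → (K : ℝ) ≤ K1 * Real.log x ^ E2 → 1 ≤ q →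
    (q : ℝ) ≤ Real.log x ^ E1 → ∀ ξ : ℝ, Real.log x ^ E4 ≤ |ξ| → |ξ| ≤ (x : ℝ) ^ 2 →
    ‖∑ k ∈ (Ioc K1 K).filter (fun k => k % q = r),
      ((((k ^ j : ℕ) : ℝ) ^ (-(1 / 2) : ℝ) : ℝ) : ℂ) * e (ξ * Real.log ((k ^ j : ℕ) : ℝ))‖ ^ 2 ≤
      ((K : ℝ) ^ 2 / (K : ℝ) ^ j) / Real.log x ^ U := by
  set U' : ℕ := U + (j - 1) * E2 with hU'
  obtain ⟨E4, X0, hk⟩ := KS.ksum_of vdc_log (ε / 4) (by positivity) E1 E2 U'
  obtain ⟨X1, hX1⟩ := KS.exists_x0 (ε / 2) (by positivity) 1 E2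
  obtain ⟨X2, hX2⟩ := MP.log_large (max 1 (2 ^ E4))
  refine ⟨E4 + 1, X0 + X1 + X2 + j + 2, ?_⟩
  intro x hx K K1 q r hεK hKx hK1K hKK1 hq hqL ξ hξ1 hξ2
  have hx0 : (0 : ℝ) < x := by
    have : 0 < x := by omega
    exact_mod_cast this
  have hx1 : (1 : ℝ) ≤ x := by
    have : 1 ≤ x := by omega
    exact_mod_cast this
  have c1 := hX1 x (by omega)
  have c2 := hX2 x (by omega)
  set L := Real.log x with hL
  have hL1 : 1 ≤ L := (le_max_left _ _).trans c2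
  have hL2 : (2 : ℝ) ^ E4 ≤ L := (le_max_right _ _).trans c2
  have hL0 : 0 < L := by linarith
  have hlog : Real.log ((x ^ 2 : ℕ) : ℝ) = 2 * L := by
    push_cast
    rw [Real.log_pow]
    push_cast
    rfl
  have hK0 : (0 : ℝ) < K := lt_of_lt_of_le (Real.rpow_pos_of_pos hx0 ε) hεK
  have hLE2 : 0 < L ^ E2 := by positivity
  -- lower bound for K1
  have hxx : (x : ℝ) ^ ε = (x : ℝ) ^ (ε / 2) * (x : ℝ) ^ (ε / 2) := by
    rw [← Real.rpow_add hx0]; ring_nf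
  have hK1low : (x : ℝ) ^ (ε / 2) ≤ K1 := by
    have h1 : (x : ℝ) ^ (ε / 2) * L ^ E2 ≤ K1 * L ^ E2 := by
      calc (x : ℝ) ^ (ε / 2) * L ^ E2 ≤ (x : ℝ) ^ (ε / 2) * (x : ℝ) ^ (ε / 2) := by
            apply mul_le_mul_of_nonneg_left _ (Real.rpow_nonneg hx0.le _)
            linarith
        _ = (x : ℝ) ^ ε := hxx.symm
        _ ≤ K := hεK
        _ ≤ K1 * L ^ E2 := hKK1
    exact le_of_mul_le_mul_right h1 hLE2
  have hK10 : (0 : ℝ) < K1 := lt_of_lt_of_le (Real.rpow_pos_of_pos hx0 _) hK1low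
  have hK1n : 0 < K1 := by exact_mod_cast hK10
  set g : ℕ → ℂ := fun k => if k % q = r then
    ((((k : ℝ) ^ (-(1 / 2) : ℝ) : ℝ) : ℂ) * e ((j * ξ) * Real.log k)) else 0 with hg
  set w : ℕ → ℝ := fun k => (k : ℝ) ^ (-(((j : ℝ) - 1) / 2)) with hw
  have hj1 : (1 : ℝ) ≤ j := by exact_mod_cast hj
  -- partial sums
  have hpart : ∀ b, K1 ≤ b → b ≤ K → ‖∑ k ∈ Ioc K1 b, g k‖ ≤ Real.sqrt (K / L ^ U') := by
    intro b hb1 hb2
    apply Real.le_sqrt_of_sq_le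
    rw [hg, ← sum_filter]
    have hbK : (b : ℝ) ≤ K := by exact_mod_cast hb2
    have hbK1 : (K1 : ℝ) ≤ b := by exact_mod_cast hb1
    have h := hk (x ^ 2) (by nlinarith [show X0 ≤ x by omega, show 1 ≤ x by omega]) b K1 q r
      (by
        push_cast
        rw [← Real.rpow_natCast, ← Real.rpow_mul hx0.le]
        have : ((2 : ℕ) : ℝ) * (ε / 4) = ε / 2 := by push_cast; ring
        rw [this]
        exact hK1low.trans hbK1)
      (by nlinarith [show 1 ≤ x by omega]) hb1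
      (by
        rw [hlog]
        calc (b : ℝ) ≤ K := hbK
          _ ≤ K1 * L ^ E2 := hKK1
          _ ≤ K1 * (2 * L) ^ E2 := by
              apply mul_le_mul_of_nonneg_left _ hK10.le
              apply pow_le_pow_left₀ hL0.le
              linarith)
      hq
      (by
        rw [hlog]
        refine hqL.trans ?_
        apply pow_le_pow_left₀ hL0.le
        linarith)
      ((j : ℝ) * ξ)
      (by
        rw [hlog, abs_mul, mul_pow, Nat.abs_cast]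
        calc (2 : ℝ) ^ E4 * L ^ E4 ≤ L * L ^ E4 := by
              apply mul_le_mul_of_nonneg_right hL2 (by positivity)
          _ = L ^ (E4 + 1) := by ring
          _ ≤ |ξ| := hξ1
          _ ≤ j * |ξ| := by
              nlinarith [abs_nonneg ξ])
      (by
        rw [abs_mul, Nat.abs_cast]
        push_cast
        have hjx : (j : ℝ) ≤ (x : ℝ) := by
          have : j ≤ x := by omega
          exact_mod_cast this
        have hxx2 : (x : ℝ) ≤ (x : ℝ) ^ 2 := by nlinarith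
        calc (j : ℝ) * |ξ| ≤ (x : ℝ) ^ 2 * (x : ℝ) ^ 2 := by
              apply mul_le_mul (hjx.trans hxx2) hξ2 (abs_nonneg _) (by positivity)
          _ = ((x : ℝ) ^ 2) ^ 2 := by ring)
    refine h.trans ?_
    rw [hlog]
    apply div_le_div₀ hK0.le hbK (by positivity)
    apply pow_le_pow_left₀ hL0.le
    linarith
  have habel := KS.abel w g K1 (Real.sqrt (K / L ^ U')) (Real.sqrt_nonneg _) K hK1K
    (fun k _ => Real.rpow_nonneg (Nat.cast_nonneg _) _)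
    (fun k hk => by
      apply Real.rpow_le_rpow_of_nonpos
      · have : 0 < k := by omega
        exact_mod_cast this
      · push_cast; linarith
      · linarith) hpart
  have hsum : ∑ k ∈ (Ioc K1 K).filter (fun k => k % q = r),
      ((((k ^ j : ℕ) : ℝ) ^ (-(1 / 2) : ℝ) : ℝ) : ℂ) * e (ξ * Real.log ((k ^ j : ℕ) : ℝ)) =
      ∑ k ∈ Ioc K1 K, (w k : ℂ) * g k := by
    rw [sum_filter]
    apply sum_congr rfl
    intro k hk
    have hk0 : (0 : ℝ) < k := by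
      have : 0 < k := by
        have := (mem_Ioc.mp hk).1
        omega
      exact_mod_cast this
    simp only [hg, hw]
    split_ifs with h
    · rw [← mul_assoc]
      congr 1
      · rw [← Complex.ofReal_mul]
        congr 1
        push_cast
        rw [← Real.rpow_natCast, ← Real.rpow_mul hk0.le, ← Real.rpow_add hk0]
        congr 1
        ring
      · congr 1
        push_cast
        rw [Real.log_pow]
        ring
    · simp
  rw [hsum]
  have hwnn : 0 ≤ w (K1 + 1) := Real.rpow_nonneg (Nat.cast_nonneg _) _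
  have hsq : ‖∑ k ∈ Ioc K1 K, (w k : ℂ) * g k‖ ^ 2 ≤ w (K1 + 1) ^ 2 * (K / L ^ U') := by
    calc ‖∑ k ∈ Ioc K1 K, (w k : ℂ) * g k‖ ^ 2 ≤ (w (K1 + 1) * Real.sqrt (K / L ^ U')) ^ 2 := by
          apply pow_le_pow_left₀ (norm_nonneg _) habel
      _ = w (K1 + 1) ^ 2 * (K / L ^ U') := by
          rw [mul_pow, Real.sq_sqrt (by positivity)]
  refine hsq.trans ?_
  have hwK : w (K1 + 1) ^ 2 ≤ 1 / (K1 : ℝ) ^ (j - 1) := by
    have h1 : w (K1 + 1) ≤ (K1 : ℝ) ^ (-(((j : ℝ) - 1) / 2)) := by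
      apply Real.rpow_le_rpow_of_nonpos hK10
      · push_cast; linarith
      · linarith
    calc w (K1 + 1) ^ 2 ≤ ((K1 : ℝ) ^ (-(((j : ℝ) - 1) / 2))) ^ 2 := pow_le_pow_left₀ hwnn h1 2
      _ = 1 / (K1 : ℝ) ^ (j - 1) := by
        rw [← Real.rpow_natCast, ← Real.rpow_mul hK10.le, ← Real.rpow_natCast, one_div,
          ← Real.rpow_neg hK10.le]
        congr 1
        push_cast [Nat.cast_sub hj]
        ring
  have hKj : (K : ℝ) ^ (j - 1) ≤ (K1 : ℝ) ^ (j - 1) * L ^ ((j - 1) * E2) := by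
    calc (K : ℝ) ^ (j - 1) ≤ (K1 * L ^ E2) ^ (j - 1) := pow_le_pow_left₀ hK0.le hKK1 _
      _ = (K1 : ℝ) ^ (j - 1) * L ^ ((j - 1) * E2) := by
        rw [mul_pow, ← pow_mul]
        congr 2
        ring
  have hK1j : (0 : ℝ) < (K1 : ℝ) ^ (j - 1) := by positivity
  have hKj0 : (0 : ℝ) < (K : ℝ) ^ (j - 1) := by positivity
  have hinv : 1 / (K1 : ℝ) ^ (j - 1) ≤ L ^ ((j - 1) * E2) / (K : ℝ) ^ (j - 1) := by
    rw [div_le_div_iff₀ hK1j hKj0]
    linarith
  have hKjj : (K : ℝ) ^ j = (K : ℝ) ^ (j - 1) * K := by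
    rw [← pow_succ]
    congr 1
    omega
  calc w (K1 + 1) ^ 2 * (K / L ^ U') ≤ (L ^ ((j - 1) * E2) / (K : ℝ) ^ (j - 1)) * (K / L ^ U') := by
        apply mul_le_mul_of_nonneg_right (hwK.trans hinv) (by positivity)
    _ = ((K : ℝ) ^ 2 / (K : ℝ) ^ j) / L ^ U := by
        rw [hKjj, hU', pow_add]
        field_simp

end Pool.Agent.H329R2.BH
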